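import Pool.Agent.R422.EX.Final

/-!
# Exposed points of the unit balls of the constrained `H^∞` spaces

For every finite `Φ ⊂ (H^∞)^*`, a function `f` in `H^∞_Φ` is an exposed point of the closed unit ball
of `H^∞_Φ` if and only if `‖f‖ = 1` and `m (|f| = 1) > 0`.

Proof of the new direction.  Let `φ` expose `f`, suppose `|f| < 1` a.e. and extend `φ` and the
functionals `ψ ∈ Φ` to `L^∞`.  Their singular parts (in the sense of Yosida-Hewitt) are carried by
a sequence of decreasing sets `B n` of small measure (`decompose`); since `φ f = 1` and `|f| < 1`,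
`φ` is purely singular (`attain`).  A function `F` with `Re F ≥ 0` and `Re F ≥ n` on `B n` gives
the multipliers `ω = F / (k + F)` in `H^∞` with `|ω|² + |1 - ω|² ≤ 1`, tending to `0` a.e., with
`(1 - ω) ψ_s = 0` for all singular parts (`tool`, `mult`).  For `g` in `H^∞` the competitor
`f ω² + g (1 - ω)²` is in the unit ball when `g` is, `φ` is `1` at it, and `ψ` is there
`ψ_a (f ω² + g (1 - ω)²) - ψ_a f`.  If some `g` of norm `< 1` has `ψ_a g = ψ_a f` for all `ψ`,
a small correction of `g` makes all these numbers `0`; so `φ` does not expose `f` (`core`).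
Otherwise a linear combination of the absolutely continuous parts `ψ_a` on `H^∞` has norm `1` and
takes the value `1` at `f`; its extension to `L^∞` of norm `1` is purely singular again, and the
multipliers for this extension lead to a contradiction (`caseB`).
-/

set_option autoImplicit false

open scoped ENNReal Real
open MeasureTheory

noncomputable section

namespace Pool.Agent.Results.MP_4ac5ef_an.Exposed

/-- `L^∞` of a measure space, with complex scalars (the space `Lp` of Mathlib) -/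
def LI {X : Type} [MeasurableSpace X] (μ : Measure X) : Type := Lp ℂ ⊤ μ

instance instNormLI {X : Type} [MeasurableSpace X] {μ : Measure X} : NormedAddCommGroup (LI μ) :=
  Lp.instNormedAddCommGroup (E := ℂ) (p := ⊤) (μ := μ)

instance instSpaceLI {X : Type} [MeasurableSpace X] {μ : Measure X} : NormedSpace ℂ (LI μ) :=
  Lp.instNormedSpace (E := ℂ) (p := ⊤) (μ := μ) (𝕜 := ℂ)

/-- an element of `L^∞` as a function -/
def LI.fn {X : Type} [MeasurableSpace X] {μ : Measure X} (f : LI μ) : X → ℂ :=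
  AEEqFun.cast (Subtype.val f)

section
variable {E : Type} [NormedAddCommGroup E] [NormedSpace ℂ E]

/-- the common kernel of a finite set of bounded linear functionals, as a subspace -/
def kerSub (Φ : Finset (StrongDual ℂ E)) : Submodule ℂ E where
  carrier := {f | ∀ φ ∈ Φ, φ f = 0}
  add_mem' := by
    intro f g hf hg φ hφ
    rw [map_add, hf φ hφ, hg φ hφ, add_zero]
  zero_mem' := fun φ _ => map_zero φ
  smul_mem' := by
    intro c f hf φ hφ
    rw [map_smul, hf φ hφ, smul_zero]

/-- the common kernel of a finite set of bounded linear functionals, with the norm of the space -/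
def Ker (Φ : Finset (StrongDual ℂ E)) : Type := kerSub Φ

instance instNormKer (Φ : Finset (StrongDual ℂ E)) : NormedAddCommGroup (Ker Φ) :=
  Submodule.normedAddCommGroup (kerSub Φ)

instance instSpaceKer (Φ : Finset (StrongDual ℂ E)) : NormedSpace ℂ (Ker Φ) :=
  Submodule.normedSpace (kerSub Φ)

/-- an element of the common kernel as a vector of the space -/
def Ker.vec {Φ : Finset (StrongDual ℂ E)} (f : Ker Φ) : E := Subtype.val f

/-- exposed points of the closed unit ball of a complex normed space -/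
def IsExposedPoint (x : E) : Prop :=
  ‖x‖ ≤ 1 ∧ ∃ φ : StrongDual ℂ E, ‖φ‖ = 1 ∧ {y : E | ‖y‖ ≤ 1 ∧ φ y = 1} = {x}

end

/-- the unit circle, as `ℝ / 2πℤ` (the point `θ` stands for `e^{iθ}`) -/
abbrev Circ : Type := AddCircle (2 * π)

theorem twoPi : Fact (0 < 2 * π) := Fact.mk Real.two_pi_pos

attribute [local instance] twoPi

/-- normalised Haar measure on the circle -/
def m : Measure Circ := AddCircle.haarAddCircle

/-- `L^∞` of the circle -/
def Linf : Type := LI m

instance instNormL : NormedAddCommGroup Linf := instNormLI (μ := m)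

instance instSpaceL : NormedSpace ℂ Linf := instSpaceLI (μ := m)

/-- the Fourier coefficient `∫ e^{-ikθ} f(θ) dm(θ)` -/
def coef (f : Linf) (k : ℤ) : ℂ := fourierCoeff (LI.fn (μ := m) f) k

theorem coef_add (f g : Linf) (k : ℤ) : coef (f + g) k = coef f k + coef g k :=
  Pool.Agent.R422.EX.fourierCoeff_add_top f g k

theorem coef_smul (c : ℂ) (f : Linf) (k : ℤ) : coef (c • f) k = c * coef f k :=
  Pool.Agent.R422.EX.fourierCoeff_smul_top c f k

/-- the functions in `L^∞` whose Fourier coefficients of negative index vanish -/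
def hinf : Submodule ℂ Linf where
  carrier := {f | ∀ k : ℤ, k < 0 → coef f k = 0}
  add_mem' := by
    intro f g hf hg k hk
    rw [coef_add, hf k hk, hg k hk, add_zero]
  zero_mem' := by
    intro k _
    have := coef_smul 0 0 k
    simpa using this
  smul_mem' := by
    intro c f hf k hk
    rw [coef_smul, hf k hk, mul_zero]

/-- the space `H^∞` -/
def Hinf : Type := hinf

instance instNormH : NormedAddCommGroup Hinf := Submodule.normedAddCommGroup hinf

instance instSpaceH : NormedSpace ℂ Hinf := Submodule.normedSpace hinf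

/-- an element of `H^∞` as a function on the circle -/
def Hinf.fn (f : Hinf) : Circ → ℂ := LI.fn (μ := m) (Subtype.val f)

section proof

open Pool.Agent.R422.EX Filter Set Complex
open scoped Topology ComplexConjugate

/-- the class of a function -/
def toM (u : Circ → ℂ) : Linf := toL u

theorem norm_toM_le {u : Circ → ℂ} {C : ℝ} (hC : 0 ≤ C) (hu : BM mT u)
    (h : ∀ᵐ x ∂mT, ‖u x‖ ≤ C) : ‖toM u‖ ≤ C := norm_toL_le hC hu h

theorem toM_coe {u : Circ → ℂ} (hu : BM mT u) : (LI.fn (μ := m) (toM u)) =ᵐ[mT] u := toL_coe hu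

theorem fnl_dualM (L : StrongDual ℂ Linf) : Fnl mT ‖L‖ (fun u => L (toM u)) :=
  fnl_dual (L : StrongDual ℂ (Lp ℂ ⊤ mT))

theorem fn_bm (f : Linf) : BM mT (LI.fn (μ := m) f) := lp_bm f

theorem fn_le (f : Linf) : ∀ᵐ x ∂mT, ‖LI.fn (μ := m) f x‖ ≤ ‖f‖ := lp_le f

theorem fn_meas (f : Linf) : Measurable (LI.fn (μ := m) f) :=
  (Lp.stronglyMeasurable (show Lp ℂ ⊤ mT from f)).measurable

theorem toM_self (f : Linf) : toM (LI.fn (μ := m) f) = f := toL_self f

theorem fn_add (f g : Linf) : ∀ᵐ x ∂mT, LI.fn (μ := m) (f + g) x =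
    LI.fn (μ := m) f x + LI.fn (μ := m) g x := Lp.coeFn_add f g

theorem fn_smul (c : ℂ) (f : Linf) : ∀ᵐ x ∂mT, LI.fn (μ := m) (c • f) x =
    c * LI.fn (μ := m) f x := Lp.coeFn_smul c f

theorem fn_ext {f g : Linf} (h : ∀ᵐ x ∂mT, LI.fn (μ := m) f x = LI.fn (μ := m) g x) : f = g :=
  Lp.ext h

theorem mem_hinf (f : Linf) : HI (LI.fn (μ := m) f) ↔ f ∈ hinf :=
  ⟨fun h => h.2, fun h => ⟨fn_bm f, h⟩⟩

theorem forward (Φ : Finset (StrongDual ℂ Hinf)) (f : Ker Φ) (h : IsExposedPoint f) :
    ‖f‖ = 1 ∧ 0 < m {ζ : Circ | ‖f.vec.fn ζ‖ = 1} := by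
  obtain ⟨hf1, φ, hφ1, hφ⟩ := h
  have hφf : φ f = 1 := by
    have : f ∈ {y : Ker Φ | ‖y‖ ≤ 1 ∧ φ y = 1} := by rw [hφ]; rfl
    exact this.2
  have hfn : ‖f‖ = 1 := by
    refine le_antisymm hf1 ?_
    have := φ.le_opNorm f
    rw [hφf, hφ1, norm_one, one_mul] at this
    exact this
  refine ⟨hfn, ?_⟩
  by_contra hE
  have hE0 : mT {ζ : Circ | ‖f.vec.fn ζ‖ = 1} = 0 := by
    have h1 : ¬ 0 < mT {ζ : Circ | ‖f.vec.fn ζ‖ = 1} := hE
    simpa using h1
  have hlt : ∀ᵐ x ∂mT, ‖f.vec.fn x‖ < 1 := by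
    have h1 : ∀ᵐ x ∂mT, ¬ ‖f.vec.fn x‖ = 1 := measure_eq_zero_iff_ae_notMem.1 hE0
    have h2 := fn_le (Subtype.val f.vec)
    have h3 : ‖(Subtype.val f.vec : Linf)‖ = 1 := hfn
    filter_upwards [h1, h2] with x a b
    rw [h3] at b
    exact lt_of_le_of_ne b a
  obtain ⟨g1, hg1, hg1n⟩ := exists_extension_norm_eq (kerSub Φ) φ
  obtain ⟨g0, hg0, hg0n⟩ := exists_extension_norm_eq hinf g1
  have hL : ∀ ψ : {ψ // ψ ∈ Φ}, ∃ L : StrongDual ℂ Linf, ∀ x : Hinf, L (Subtype.val x) = ψ.1 x := by
    intro ψ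
    obtain ⟨L, hL, -⟩ := exists_extension_norm_eq hinf ψ.1
    exact ⟨L, hL⟩
  choose L hL using hL
  have hH : HI f.vec.fn := (mem_hinf _).2 (Subtype.property f.vec)
  refine core (ι := {ψ // ψ ∈ Φ}) (fun u => g0 (toM u)) ?_ (fun ψ u => L ψ (toM u))
    (fun ψ => ‖L ψ‖) (fun ψ => fnl_dualM (L ψ)) f.vec.fn (fn_meas _) hH hlt ?_ ?_ ?_
  · have := fnl_dualM g0
    have h1 : ‖g0‖ = 1 := hg0n.trans (hg1n.trans hφ1)
    rw [h1] at this
    exact this
  · show g0 (toM f.vec.fn) = 1
    have h1 : toM f.vec.fn = Subtype.val f.vec := toM_self _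
    rw [h1]
    exact (hg0 f.vec).trans ((hg1 f).trans hφf)
  · intro ψ
    show L ψ (toM f.vec.fn) = 0
    have h1 : toM f.vec.fn = Subtype.val f.vec := toM_self _
    rw [h1, hL]
    exact Subtype.property f ψ.1 ψ.2
  · intro g hg hgn hlg hφg
    have h1 : HI (LI.fn (μ := m) (toM g)) := hg.congr (toM_coe hg.1).symm
    have h2 : toM g ∈ hinf := (mem_hinf _).1 h1
    have h3 : (⟨toM g, h2⟩ : hinf) ∈ kerSub (E := Hinf) Φ := by
      intro ψ hψ
      have := hL ⟨ψ, hψ⟩ ⟨toM g, h2⟩
      exact this.symm.trans (hlg ⟨ψ, hψ⟩)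
    set F : Ker Φ := ⟨⟨toM g, h2⟩, h3⟩ with hF
    have h4 : F ∈ {y : Ker Φ | ‖y‖ ≤ 1 ∧ φ y = 1} := by
      refine ⟨norm_toM_le zero_le_one hg.1 hgn, ?_⟩
      exact (hg1 F).symm.trans ((hg0 (Subtype.val F)).symm.trans hφg)
    rw [hφ, mem_singleton_iff] at h4
    have h5 : toM g = Subtype.val f.vec := congrArg (fun y : Ker Φ => Subtype.val y.vec) h4
    have h6 := toM_coe hg.1
    rw [h5] at h6
    exact h6.symm

theorem backward (Φ : Finset (StrongDual ℂ Hinf)) (f : Ker Φ) (hf : ‖f‖ = 1)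
    (hE : 0 < m {ζ : Circ | ‖f.vec.fn ζ‖ = 1}) : IsExposedPoint f := by
  set a : Circ → ℂ := f.vec.fn with ha
  set E : Set Circ := {ζ : Circ | ‖a ζ‖ = 1} with hEdef
  have hE' : 0 < mT E := hE
  have hfm : Measurable a := fn_meas _
  have hEm : MeasurableSet E := measurableSet_eq_fun hfm.norm measurable_const
  have hE0 : 0 < (mT).real E := by
    rw [measureReal_def]
    exact ENNReal.toReal_pos hE'.ne' (measure_ne_top _ _)
  have hEc : ((mT).real E : ℂ) ≠ 0 := by exact_mod_cast hE0.ne'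
  have hfB : BM mT a := fn_bm _
  have hint : ∀ g : Ker Φ, Integrable (fun x => conj (a x) * g.vec.fn x)
      (mT.restrict E) := fun g => (hfB.conj.mul (fn_bm _)).integrable.restrict
  have hbd : ∀ g : Ker Φ, ∀ᵐ x ∂(mT.restrict E), ‖conj (a x) * g.vec.fn x‖ ≤ ‖g‖ := by
    intro g
    filter_upwards [ae_restrict_of_ae (fn_le (Subtype.val g.vec)), ae_restrict_mem hEm] with
      x h1 h2
    rw [norm_mul, RCLike.norm_conj, show ‖a x‖ = 1 from h2, one_mul]
    exact h1
  let Ψ0 : Ker Φ →ₗ[ℂ] ℂ :=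
    { toFun := fun g => ((mT).real E : ℂ)⁻¹ * ∫ x, conj (a x) * g.vec.fn x ∂(mT.restrict E)
      map_add' := by
        intro g g'
        rw [← mul_add, ← integral_add (hint g) (hint g')]
        congr 1
        refine integral_congr_ae ?_
        filter_upwards [ae_restrict_of_ae (fn_add (Subtype.val g.vec) (Subtype.val g'.vec))] with
          x hx
        have : (g + g').vec.fn x = g.vec.fn x + g'.vec.fn x := hx
        rw [this, mul_add]
      map_smul' := by
        intro c g
        rw [RingHom.id_apply, smul_eq_mul, mul_left_comm]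
        congr 1
        rw [← integral_const_mul (μ := mT.restrict E) c (fun x => conj (a x) * g.vec.fn x)]
        refine integral_congr_ae ?_
        filter_upwards [ae_restrict_of_ae (fn_smul c (Subtype.val g.vec))] with x hx
        have : (c • g).vec.fn x = c * g.vec.fn x := hx
        rw [this]
        ring }
  have hb : ∀ g : Ker Φ, ‖Ψ0 g‖ ≤ 1 * ‖g‖ := by
    intro g
    have h1 := norm_integral_le_of_norm_le_const (hbd g)
    rw [measureReal_restrict_apply_univ] at h1
    show ‖((mT).real E : ℂ)⁻¹ * ∫ x, conj (a x) * g.vec.fn x ∂(mT.restrict E)‖ ≤ _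
    rw [norm_mul, norm_inv, norm_real, Real.norm_of_nonneg hE0.le, inv_mul_le_iff₀ hE0, one_mul]
    exact h1.trans_eq (mul_comm _ _)
  let Ψ : StrongDual ℂ (Ker Φ) := Ψ0.mkContinuous 1 hb
  have hΨf : Ψ f = 1 := by
    show ((mT).real E : ℂ)⁻¹ * ∫ x, conj (a x) * a x ∂(mT.restrict E) = 1
    have h1 : ∫ x, conj (a x) * a x ∂(mT.restrict E) = ∫ x, (1 : ℂ) ∂(mT.restrict E) := by
      refine integral_congr_ae ?_
      filter_upwards [ae_restrict_mem hEm] with x hx
      rw [mul_comm, mul_conj, normSq_eq_norm_sq, show ‖a x‖ = 1 from hx]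
      simp
    rw [h1, integral_const, measureReal_restrict_apply_univ]
    simp [hEc]
  have hΨn : ‖Ψ‖ = 1 := by
    refine le_antisymm (Ψ0.mkContinuous_norm_le zero_le_one hb) ?_
    have := Ψ.le_opNorm f
    rw [hΨf, hf, norm_one, mul_one] at this
    exact this
  refine ⟨hf.le, Ψ, hΨn, ?_⟩
  apply Set.eq_singleton_iff_unique_mem.2
  refine ⟨⟨hf.le, hΨf⟩, ?_⟩
  rintro g ⟨hg1, hΨg⟩
  set b : Circ → ℂ := g.vec.fn with hbdef
  have h1 : ∫ x, (1 - (conj (a x) * b x).re) ∂(mT.restrict E) = 0 := by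
    have h2 : ∫ x, conj (a x) * b x ∂(mT.restrict E) = ((mT).real E : ℂ) := by
      have h3 : ((mT).real E : ℂ)⁻¹ * ∫ x, conj (a x) * b x ∂(mT.restrict E) = 1 := hΨg
      field_simp at h3
      exact h3
    have h4 : ∫ x, (conj (a x) * b x).re ∂(mT.restrict E) = (mT).real E := by
      have h5 := integral_re (hint g)
      rw [← hbdef, h2] at h5
      simpa using h5
    have h6 := integral_sub (μ := mT.restrict E) (integrable_const (1 : ℝ)) (hint g).re
    refine h6.trans ?_
    have h7 : (∫ x, RCLike.re (conj (a x) * g.vec.fn x) ∂(mT.restrict E)) = (mT).real E := h4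
    rw [h7]
    simp
  have hnn : 0 ≤ᵐ[mT.restrict E] fun x => (1 - (conj (a x) * b x).re) := by
    filter_upwards [hbd g] with x hx
    have h3 := re_le_norm (conj (a x) * g.vec.fn x)
    show 0 ≤ (1 - (conj (a x) * g.vec.fn x).re)
    linarith
  have h2 := (integral_eq_zero_iff_of_nonneg_ae hnn
    ((integrable_const _).sub (hint g).re)).1 h1
  have h3 : ∀ᵐ x ∂mT, x ∈ E → b x = a x := by
    rw [EventuallyEq, ae_restrict_iff' hEm] at h2
    filter_upwards [h2, fn_le (Subtype.val g.vec)] with x h2x hbx hx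
    have hgn : ‖(Subtype.val g.vec : Linf)‖ ≤ 1 := hg1
    have c := h2x hx
    have c' : (conj (a x) * b x).re = 1 := by
      have : 1 - (conj (a x) * b x).re = 0 := c
      linarith
    have hfx : ‖a x‖ = 1 := hx
    have h5 : normSq (b x - a x) ≤ 0 := by
      have e1 : normSq (b x) ≤ 1 := by
        rw [normSq_eq_norm_sq]
        have : ‖b x‖ ≤ 1 := hbx.trans hgn
        nlinarith [norm_nonneg (b x)]
      have e2 : normSq (a x) = 1 := by
        rw [normSq_eq_norm_sq, hfx]; norm_num
      rw [normSq_apply] at e1 e2 ⊢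
      rw [mul_re, conj_re, conj_im] at c'
      rw [sub_re, sub_im]
      nlinarith
    have h6 : b x - a x = 0 :=
      normSq_eq_zero.1 (le_antisymm h5 (normSq_nonneg _))
    exact sub_eq_zero.1 h6
  have hHf : HI a := (mem_hinf _).2 (Subtype.property f.vec)
  have hHg : HI b := (mem_hinf _).2 (Subtype.property g.vec)
  have h4 := unique_HI (hHg.add (hHf.smul (-1))) hEm hE'.ne' (by
    filter_upwards [h3] with x hx hxE
    rw [Pi.add_apply, Pi.smul_apply, hx hxE]
    simp)
  have h5 : (Subtype.val g.vec : Linf) = Subtype.val f.vec := by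
    apply fn_ext
    filter_upwards [h4] with x hx
    rw [Pi.add_apply, Pi.smul_apply] at hx
    simp only [smul_eq_mul, Pi.zero_apply] at hx
    have : b x = a x := by linear_combination hx
    exact this
  exact Subtype.ext (Subtype.ext h5)

end proof

/-- **Exposed points of constrained `H^∞` spaces.**  For every finite set `Φ` of bounded linear
functionals on `H^∞`, a function `f` in `H^∞_Φ = Ker Φ` is an exposed point of the closed unit
ball of `H^∞_Φ` if and only if `‖f‖ = 1` and `|f| = 1` on a set of positive measure. -/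
theorem result (Φ : Finset (StrongDual ℂ Hinf)) (f : Ker Φ) :
    IsExposedPoint f ↔ ‖f‖ = 1 ∧ 0 < m {ζ : Circ | ‖f.vec.fn ζ‖ = 1} :=
  ⟨forward Φ f, fun h => backward Φ f h.1 h.2⟩

end Pool.Agent.Results.MP_4ac5ef_an.Exposed
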